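import Pool.Agent.Q92.AR.Stm

/-! # Project AR (helper92), job UH: the infinite places -/

set_option autoImplicit false

namespace Pool.Agent.Q95.AR

open Pool.Agent.Q92.AR NumberField

variable (F E : Type) [Field F] [NumberField F] [Field E] [NumberField E] [Algebra F E]

/-- the place of a real embedding -/
noncomputable def rp {K : Type} [Field K] (φ : K →+* ℝ) : InfinitePlace K :=
  InfinitePlace.mk (Complex.ofRealHom.comp φ)

theorem rp_conj {K : Type} [Field K] (φ : K →+* ℝ) :
    ComplexEmbedding.IsReal (Complex.ofRealHom.comp φ) := by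
  rw [ComplexEmbedding.isReal_iff]
  ext x
  simp

theorem rp_real {K : Type} [Field K] (φ : K →+* ℝ) : (rp φ).IsReal :=
  ⟨_, rp_conj φ, rfl⟩

theorem rp_emb {K : Type} [Field K] (φ : K →+* ℝ) :
    (rp φ).embedding = Complex.ofRealHom.comp φ :=
  InfinitePlace.embedding_mk_eq_of_isReal (rp_conj φ)

theorem rp_inj {K : Type} [Field K] {φ ψ : K →+* ℝ} (h : rp φ = rp ψ) : φ = ψ := by
  have h1 : Complex.ofRealHom.comp φ = Complex.ofRealHom.comp ψ := by
    rw [← rp_emb, ← rp_emb, h]
  ext x
  have h2 := congrArg (fun f : K →+* ℂ => f x) h1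
  exact Complex.ofReal_injective h2

theorem rp_of {K : Type} [Field K] {w : InfinitePlace K} (hw : w.IsReal) :
    rp (InfinitePlace.embedding_of_isReal hw) = w := by
  unfold rp
  have h : Complex.ofRealHom.comp (InfinitePlace.embedding_of_isReal hw) = w.embedding := by
    ext x
    exact InfinitePlace.embedding_of_isReal_apply hw x
  rw [h, InfinitePlace.mk_embedding]

theorem rp_comap {K L : Type} [Field K] [Field L] (f : K →+* L) (χ : L →+* ℝ) :
    (rp χ).comap f = rp (χ.comp f) := rfl

theorem card_realRam [IsGalois F E] :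
    Nat.card (RealRam F E) = Nat.card {y : InfinitePlace F // ¬ y.IsUnramifiedIn E} := by
  refine Nat.card_congr (Equiv.ofBijective
    (fun φ : RealRam F E => (⟨rp φ.1, ?_⟩ : {y : InfinitePlace F // ¬ y.IsUnramifiedIn E})) ⟨?_, ?_⟩)
  · intro hun
    obtain ⟨w, hw0⟩ := InfinitePlace.comap_surjective (K := E) (rp φ.1)
    have hw : w.comap (algebraMap F E) = rp φ.1 := hw0
    have hr : (w.comap (algebraMap F E)).IsReal := by rw [hw]; exact rp_real _
    rcases InfinitePlace.isUnramified_iff.1 (hun w hw) with h1 | h1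
    · refine φ.2 ⟨InfinitePlace.embedding_of_isReal h1, ?_⟩
      apply rp_inj
      exact (rp_comap _ _).symm.trans ((congrArg (fun z : InfinitePlace E =>
        z.comap (algebraMap F E)) (rp_of h1)).trans hw)
    · exact InfinitePlace.not_isReal_iff_isComplex.2 h1 hr
  · intro φ ψ h
    exact Subtype.ext (rp_inj (congrArg Subtype.val h))
  · rintro ⟨y, hy⟩
    unfold InfinitePlace.IsUnramifiedIn at hy
    push Not at hy
    obtain ⟨w, hw, hr⟩ := hy
    obtain ⟨h1, h2⟩ := InfinitePlace.not_isUnramified_iff.1 hr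
    rw [hw] at h2
    refine ⟨⟨InfinitePlace.embedding_of_isReal h2, ?_⟩, Subtype.ext (rp_of h2)⟩
    rintro ⟨χ, hχ⟩
    have h3 : (rp χ).comap (algebraMap F E) = w.comap (algebraMap F E) := by
      rw [rp_comap, hχ, rp_of h2, hw]
    obtain ⟨g, hg⟩ := InfinitePlace.exists_smul_eq_of_comap_eq h3
    have h4 : w.IsReal := by
      rw [← hg]
      exact InfinitePlace.isReal_smul_iff.2 (rp_real χ)
    exact InfinitePlace.not_isReal_iff_isComplex.2 h1 h4

theorem perm_places (hPerm : S_Perm) [IsGalois F E] (σ : E ≃ₐ[F] E)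
    (hσ : ∀ g : E ≃ₐ[F] E, g ∈ Subgroup.zpowers σ) (β : AddMonoid.End (InfinitePlace E → ℤ))
    (hβ : ∀ a w, β a w = a (σ⁻¹ • w)) :
    q1 β (Module.finrank F E) = 1 ∧
      q0 β (Module.finrank F E) = 2 ^ Nat.card (RealRam F E) := by
  classical
  have hcard : Nat.card (E ≃ₐ[F] E) = Module.finrank F E := IsGalois.card_aut_eq_finrank F E
  have hn : 0 < Module.finrank F E := Module.finrank_pos
  set n := Module.finrank F E with hndef
  let e : Equiv.Perm (InfinitePlace E) := MulAction.toPermHom (E ≃ₐ[F] E) (InfinitePlace E) σ⁻¹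
  have hek : ∀ (k : ℕ) (w : InfinitePlace E), (e ^ k) w = (σ⁻¹ ^ k) • w := fun k w => by
    show ((MulAction.toPermHom (E ≃ₐ[F] E) (InfinitePlace E) σ⁻¹) ^ k) w = _
    rw [← map_pow]
    rfl
  have he : e ^ n = 1 := by
    ext1 w
    rw [hek, ← hcard, pow_card_eq_one']
    simp
  let π : InfinitePlace E → InfinitePlace F := fun w => w.comap (algebraMap F E)
  let d : InfinitePlace F → ℕ := fun y => if y.IsUnramifiedIn E then 1 else 2
  have h1 : Function.Surjective π := InfinitePlace.comap_surjective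
  have h2 : ∀ x x' : InfinitePlace E, π x = π x' ↔ ∃ k : ℕ, (e ^ k) x = x' := by
    intro x x'
    rw [show (π x = π x') ↔ x' ∈ MulAction.orbit (E ≃ₐ[F] E) x from
      InfinitePlace.mem_orbit_iff.symm]
    constructor
    · rintro ⟨g, hg⟩
      have h3 : g ∈ Subgroup.zpowers σ⁻¹ := by
        rw [Subgroup.zpowers_inv]
        exact hσ g
      obtain ⟨k, hk⟩ := mem_powers_iff_mem_zpowers.2 h3
      refine ⟨k, ?_⟩
      rw [hek]
      have hk' : σ⁻¹ ^ k = g := hk
      rw [hk']
      exact hg
    · rintro ⟨k, hk⟩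
      refine ⟨σ⁻¹ ^ k, ?_⟩
      rw [hek] at hk
      exact hk
  have h3 : ∀ y, Nat.card {x // π x = y} * d y = n := by
    intro y
    obtain ⟨w, rfl⟩ := h1 y
    have h4 : Nat.card {x // π x = π w} = (MulAction.stabilizer (E ≃ₐ[F] E) w).index := by
      rw [MulAction.index_stabilizer, ← Nat.card_coe_set_eq]
      refine Nat.card_congr (Equiv.subtypeEquivRight fun x => ?_)
      rw [InfinitePlace.mem_orbit_iff]
      exact eq_comm
    have h5 : d (π w) = Nat.card (MulAction.stabilizer (E ≃ₐ[F] E) w) := by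
      rw [InfinitePlace.card_stabilizer]
      show (if (w.comap (algebraMap F E)).IsUnramifiedIn E then 1 else 2) = _
      simp only [InfinitePlace.isUnramifiedIn_comap]
    rw [h4, h5, mul_comm, Subgroup.card_mul_index, hcard]
  obtain ⟨k1, k2⟩ := hPerm (InfinitePlace E) (InfinitePlace F) e n π d β hn he h1 h2 h3
    (fun a x => hβ a x)
  refine ⟨k1, k2.trans ?_⟩
  rw [card_realRam]
  show ∏ y : InfinitePlace F, (if y.IsUnramifiedIn E then 1 else 2) = _
  rw [Finset.prod_ite, Finset.prod_const_one, one_mul, Finset.prod_const, Nat.card_eq_fintype_card,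
    Fintype.card_subtype]

end Pool.Agent.Q95.AR
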