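import Pool.Agent.Q182.AR.Base
import Mathlib.NumberTheory.NumberField.Units.DirichletTheorem

/-! # Project AR (helper92), job UH: the ranks -/

set_option autoImplicit false

namespace Pool.Agent.Q95.AR

open Pool.Agent.Q92.AR NumberField IsDedekindDomain Module

section
variable {E : Type} [Field E] [NumberField E]

theorem unit_of_prin (x : Eˣ) (h : prin x = 0) :
    ∃ u : (𝓞 E)ˣ, algebraMap (𝓞 E) E (u : 𝓞 E) = (x : E) := by
  have h1 : ∀ y : Eˣ, prin y = 0 → ∃ b : 𝓞 E, algebraMap (𝓞 E) E b = (y : E) := fun y hy =>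
    HeightOneSpectrum.mem_integers_of_valuation_le_one E (y : E) fun v =>
      ((Pool.Agent.Q182.AR.prin_eq_zero_iff y v).1 (by rw [hy]; rfl)).le
  obtain ⟨a, ha⟩ := h1 x h
  obtain ⟨b, hb⟩ := h1 x⁻¹ (by rw [prin_inv, h, neg_zero])
  have hab : a * b = 1 := by
    apply FaithfulSMul.algebraMap_injective (𝓞 E) E
    rw [map_mul, map_one, ha, hb, Units.mul_inv]
  exact ⟨⟨a, b, hab, by rw [mul_comm]; exact hab⟩, ha⟩

/-- the inclusion of the units of the ring of integers -/
noncomputable def iota (E : Type) [Field E] [NumberField E] : Additive (𝓞 E)ˣ →+ Additive Eˣ :=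
  MonoidHom.toAdditive (Units.map (algebraMap (𝓞 E) E : 𝓞 E →* E))

theorem iota_inj : Function.Injective (iota E) := by
  intro x y h
  have h1 : Units.map (algebraMap (𝓞 E) E : 𝓞 E →* E) x.toMul
      = Units.map (algebraMap (𝓞 E) E : 𝓞 E →* E) y.toMul := h
  have h2 := congrArg (fun z : Eˣ => (z : E)) h1
  exact Additive.toMul.injective (Units.ext (FaithfulSMul.algebraMap_injective (𝓞 E) E h2))

/-- the ranks -/
theorem ranks (U : AddSubgroup (Additive Eˣ)) (hU : ∀ u ∈ U, prin u.toMul = 0)
    (f : (InfinitePlace E → ℤ) →+ U)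
    (hker : ∀ a, f a = 0 → (∀ w, 0 < a w) ∨ (∀ w, a w < 0) ∨ ∀ w, a w = 0) :
    (∃ a, f a = 0 ∧ a ≠ 0) ∧ Finite (U ⧸ f.range) := by
  classical
  have hUr : U ≤ (iota E).range := by
    intro u hu
    obtain ⟨v, hv⟩ := unit_of_prin u.toMul (hU u hu)
    exact ⟨Additive.ofMul v, Additive.toMul.injective (Units.ext hv)⟩
  let φ : U →+ Additive (𝓞 E)ˣ :=
    (AddMonoidHom.ofInjective (iota_inj (E := E))).symm.toAddMonoidHom.comp
      (AddSubgroup.inclusion hUr)
  have hφ : Function.Injective φ.toIntLinearMap :=
    (AddMonoidHom.ofInjective (iota_inj (E := E))).symm.injective.comp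
      (AddSubgroup.inclusion_injective hUr)
  have hfin : Module.Finite ℤ U := Module.Finite.of_injective φ.toIntLinearMap hφ
  have hr1 : finrank ℤ U ≤ Fintype.card (InfinitePlace E) - 1 := by
    have h1 := LinearMap.finrank_le_finrank_of_injective hφ
    rw [Units.finrank_eq] at h1
    exact h1
  have hW : 0 < Fintype.card (InfinitePlace E) := Fintype.card_pos
  have hrW : finrank ℤ (InfinitePlace E → ℤ) = Fintype.card (InfinitePlace E) :=
    Module.finrank_fintype_fun_eq_card ℤ
  let f' : (InfinitePlace E → ℤ) →ₗ[ℤ] U := f.toIntLinearMap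
  -- the kernel
  obtain ⟨w0⟩ : Nonempty (InfinitePlace E) := inferInstance
  let ev : (LinearMap.ker f') →ₗ[ℤ] ℤ := (LinearMap.proj w0).comp (LinearMap.ker f').subtype
  have hev : Function.Injective ev := by
    rw [injective_iff_map_eq_zero]
    intro a ha
    have h0 : (a : InfinitePlace E → ℤ) w0 = 0 := ha
    rcases hker _ (LinearMap.mem_ker.1 a.2) with h | h | h
    · have := h w0
      omega
    · have := h w0
      omega
    · exact Subtype.ext (funext h)
  have hk1 : finrank ℤ (LinearMap.ker f') ≤ 1 := by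
    have h1 := LinearMap.finrank_le_finrank_of_injective hev
    rwa [Module.finrank_self] at h1
  have hrn := Submodule.finrank_quotient_add_finrank (LinearMap.ker f')
  rw [hrW, f'.quotKerEquivRange.finrank_eq] at hrn
  constructor
  · by_contra hcon
    push Not at hcon
    have hinj : Function.Injective f' := by
      rw [injective_iff_map_eq_zero]
      intro a ha
      exact hcon a ha
    have h1 := LinearMap.finrank_le_finrank_of_injective hinj
    rw [hrW] at h1
    omega
  · have hq := Submodule.finrank_quotient_add_finrank (LinearMap.range f')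
    have h0 : finrank ℤ (U ⧸ LinearMap.range f') = 0 := by omega
    have ht : Module.IsTorsion ℤ (U ⧸ LinearMap.range f') :=
      Module.finrank_eq_zero_iff_isTorsion.1 h0
    have hF : Finite (U ⧸ LinearMap.range f') := Module.finite_of_fg_torsion _ ht
    have he : (LinearMap.range f').toAddSubgroup = f.range := by
      ext u
      rfl
    have hF2 : Finite (U ⧸ (LinearMap.range f').toAddSubgroup) := hF
    rw [he] at hF2
    exact hF2

end

end Pool.Agent.Q95.AR
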