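import Pool.Agent.Q95.AR.UHa
import Pool.Agent.Q95.AR.UHb
import Pool.Agent.Q95.AR.UHc

/-! # Project AR (helper92), job UH -/

set_option autoImplicit false

namespace Pool.Agent.Q95.AR

open Pool.Agent.Q92.AR NumberField IsDedekindDomain Module

/-- the logarithm of an infinite place -/
noncomputable def lg {E : Type} [Field E] (w : InfinitePlace E) : Additive Eˣ →+ ℝ where
  toFun x := Real.log (w ((x.toMul : Eˣ) : E))
  map_zero' := by
    show Real.log (w (1 : E)) = 0
    rw [map_one, Real.log_one]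
  map_add' x y := by
    show Real.log (w (((x.toMul : Eˣ) : E) * ((y.toMul : Eˣ) : E))) = _
    rw [map_mul, Real.log_mul]
    · exact (InfinitePlace.pos_iff.2 (Units.ne_zero _)).ne'
    · exact (InfinitePlace.pos_iff.2 (Units.ne_zero _)).ne'

/-- JOB UH -/
theorem uh (hHex : S_Hex) (hFin : S_HFin) (hPerm : S_Perm) (hMat : S_Mat) (hEps : S_Eps) :
    S_UH := by
  classical
  intro F E _ _ _ _ _ _ σ hσ U τ hres hU hm
  obtain ⟨m, hm0, hmU⟩ := hm
  obtain ⟨ε, hε0, hεg, hεlt⟩ := hEps F E
  have hcard : Nat.card (E ≃ₐ[F] E) = finrank F E := IsGalois.card_aut_eq_finrank F E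
  have hn : 0 < finrank F E := Module.finrank_pos
  -- the units in `U`
  let u : InfinitePlace E → U := fun w => ⟨Additive.ofMul (ε w ^ m), hmU _ (hε0 w)⟩
  have hτu : ∀ w, τ (u w) = u (σ • w) := by
    intro w
    refine Subtype.ext ?_
    rw [hres]
    refine Additive.toMul.injective (Units.ext ?_)
    rw [sE_apply]
    show σ ((ε w : E) ^ m) = (ε (σ • w) : E) ^ m
    rw [map_pow, hεg]
  let f : (InfinitePlace E → ℤ) →+ U :=
    ∑ w, ((zmultiplesHom U) (u w)).comp (Pi.evalAddMonoidHom (fun _ : InfinitePlace E => ℤ) w)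
  have hfa : ∀ a, f a = ∑ w, a w • u w := fun a => by
    show (∑ w, ((zmultiplesHom U) (u w)).comp
      (Pi.evalAddMonoidHom (fun _ : InfinitePlace E => ℤ) w)) a = _
    rw [AddMonoidHom.finsetSum_apply]
    rfl
  -- the action on the places
  let e : Equiv.Perm (InfinitePlace E) := MulAction.toPermHom (E ≃ₐ[F] E) (InfinitePlace E) σ⁻¹
  have he : e ^ finrank F E = 1 := by
    show (MulAction.toPermHom (E ≃ₐ[F] E) (InfinitePlace E) σ⁻¹) ^ finrank F E = 1
    rw [← map_pow, ← hcard, pow_card_eq_one', map_one]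
  let β : AddMonoid.End (InfinitePlace E → ℤ) :=
    { toFun := fun a w => a (σ⁻¹ • w)
      map_zero' := rfl
      map_add' := fun _ _ => rfl }
  have hf : ∀ a, f (β a) = τ (f a) := by
    intro a
    rw [hfa, hfa, map_sum]
    simp_rw [map_zsmul, hτu]
    show ∑ w, a (σ⁻¹ • w) • u w = ∑ w, a w • u (σ • w)
    refine Finset.sum_bij' (fun w _ => σ⁻¹ • w) (fun w _ => σ • w) ?_ ?_ ?_ ?_ ?_
    · intro _ _; exact Finset.mem_univ _
    · intro _ _; exact Finset.mem_univ _
    · intro w _; exact smul_inv_smul σ w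
    · intro w _; exact inv_smul_smul σ w
    · intro w _
      rw [smul_inv_smul]
  have hτn : τ ^ finrank F E = 1 := by
    refine pow_eq_one_of_inj τ (sE σ) U.subtype Subtype.val_injective (fun x => hres x) _ ?_
    refine DFunLike.ext _ _ fun x => Additive.toMul.injective (Units.ext ?_)
    have h1 : ∀ (k : ℕ) (y : Additive Eˣ), ((((sE σ) ^ k) y).toMul : E) = (σ ^ k) (y.toMul : E) := by
      intro k
      induction k with
      | zero => intro y; rfl
      | succ k ih =>
        intro y
        rw [pow_succ, pow_succ]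
        show (((sE σ ^ k) (sE σ y)).toMul : E) = (σ ^ k) (σ (y.toMul : E))
        rw [ih, sE_apply]
    rw [h1, ← hcard, pow_card_eq_one']
    rfl
  -- the kernel
  have hpos : ∀ w w' : InfinitePlace E, 0 < w' (ε w : E) := fun w w' =>
    InfinitePlace.pos_iff.2 (Units.ne_zero _)
  have hker : ∀ a, f a = 0 → (∀ w, 0 < a w) ∨ (∀ w, a w < 0) ∨ ∀ w, a w = 0 := by
    intro a ha
    have h1 : ∀ w' : InfinitePlace E, ∑ w, (a w : ℝ) * Real.log (w' (ε w : E)) = 0 := by
      intro w'
      have h2 : (lg w') ((f a : U) : Additive Eˣ) = 0 := by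
        rw [ha]
        exact map_zero _
      rw [hfa, AddSubgroup.val_finsetSum, map_sum] at h2
      have h3 : ∀ w, lg w' ((a w • u w : U) : Additive Eˣ)
          = m * ((a w : ℝ) * Real.log (w' (ε w : E))) := by
        intro w
        have h4 : ((a w • u w : U) : Additive Eˣ) = a w • Additive.ofMul (ε w ^ m) := rfl
        have h5 : lg w' (Additive.ofMul (ε w ^ m)) = m * Real.log (w' (ε w : E)) := by
          show Real.log (w' ((ε w ^ m : Eˣ) : E)) = _
          rw [Units.val_pow_eq_pow_val, map_pow, Real.log_pow]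
        rw [h4, map_zsmul, h5, zsmul_eq_mul]
        ring
      simp_rw [h3] at h2
      rw [← Finset.mul_sum] at h2
      rcases mul_eq_zero.1 h2 with h5 | h5
      · exact absurd (Nat.cast_eq_zero.1 h5) hm0
      · exact h5
    have h6 := hMat (InfinitePlace E) (fun w w' => (w'.mult : ℝ) * Real.log (w' (ε w : E)))
      (fun w w' hne => mul_neg_of_pos_of_neg (Nat.cast_pos.2 InfinitePlace.mult_pos)
        (Real.log_neg (hpos w w') (hεlt w w' (Ne.symm hne))))
      (fun w => by
        obtain ⟨v, hv⟩ := unit_of_prin (ε w) (hε0 w)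
        rw [← hv]
        exact Units.sum_mult_mul_log v)
      (fun w => (a w : ℝ)) (fun w' => by
        have h7 : ∀ w, (a w : ℝ) * ((w'.mult : ℝ) * Real.log (w' (ε w : E)))
            = (w'.mult : ℝ) * ((a w : ℝ) * Real.log (w' (ε w : E))) := fun w => by ring
        simp_rw [h7]
        rw [← Finset.mul_sum, h1, mul_zero])
    rcases h6 with h | h | h
    · exact Or.inl fun w => Int.cast_pos.1 (h w)
    · exact Or.inr (Or.inl fun w => Int.cast_lt_zero.1 (h w))
    · exact Or.inr (Or.inr fun w => Int.cast_eq_zero.1 (h w))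
  obtain ⟨hne, hfinq⟩ := ranks U hU f hker
  obtain ⟨hq1, hq0⟩ := perm_places F E hPerm σ hσ β (fun _ _ => rfl)
  exact uh_alg hHex hFin e (finrank F E) hn he β (fun _ _ => rfl) τ hτn f hf hker hne hfinq
    (2 ^ Nat.card (RealRam F E)) (by positivity) hq0 hq1

end Pool.Agent.Q95.AR
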