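import Pool.Agent.Q92.AR.Stm

/-! # Project AR (helper92), job UH: the algebra -/

set_option autoImplicit false

namespace Pool.Agent.Q95.AR

open Pool.Agent.Q92.AR

section
variable {A B : Type} [AddCommGroup A] [AddCommGroup B]

theorem pow_comm (α : AddMonoid.End A) (β : AddMonoid.End B) (i : A →+ B)
    (h : ∀ a, i (α a) = β (i a)) (k : ℕ) (a : A) : i ((α ^ k) a) = (β ^ k) (i a) := by
  induction k generalizing a with
  | zero => rfl
  | succ k ih =>
    rw [pow_succ, pow_succ]
    show i ((α ^ k) (α a)) = (β ^ k) (β (i a))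
    rw [ih, h]

theorem pow_eq_one_of_inj (α : AddMonoid.End A) (β : AddMonoid.End B) (i : A →+ B)
    (hi : Function.Injective i) (h : ∀ a, i (α a) = β (i a)) (n : ℕ) (hn : β ^ n = 1) :
    α ^ n = 1 := by
  refine DFunLike.ext _ _ fun a => hi ?_
  rw [pow_comm α β i h, hn]
  rfl

theorem pow_eq_one_of_surj (α : AddMonoid.End A) (β : AddMonoid.End B) (i : A →+ B)
    (hi : Function.Surjective i) (h : ∀ a, i (α a) = β (i a)) (n : ℕ) (hn : α ^ n = 1) :
    β ^ n = 1 := by
  refine DFunLike.ext _ _ fun b => ?_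
  obtain ⟨a, rfl⟩ := hi b
  rw [← pow_comm α β i h, hn]
  rfl

/-- the quotient of orders for an infinite cyclic module with trivial action -/
theorem q_triv (K : Type) [AddCommGroup K] (v : K →+ ℤ) (hv : Function.Injective v)
    (hK : ∃ a : K, a ≠ 0) (n : ℕ) (hn : 0 < n) :
    q0 (1 : AddMonoid.End K) n = n ∧ q1 (1 : AddMonoid.End K) n = 1 := by
  have htr : ∀ a : K, tr (1 : AddMonoid.End K) n a = n • a := fun a => by
    rw [tr_apply]
    simp
  have hdf : df (1 : AddMonoid.End K) = 0 := by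
    unfold df
    exact sub_self _
  constructor
  · unfold q0
    rw [hdf, AddMonoidHom.ker_zero, AddSubgroup.relIndex_top_right]
    have hc : IsAddCyclic K := isAddCyclic_of_injective v hv
    have hinf : Infinite K := by
      obtain ⟨a, ha⟩ := hK
      refine Infinite.of_injective (fun k : ℤ => k • a) fun x y hxy => ?_
      have h1 := congrArg v hxy
      simp only [map_zsmul, smul_eq_mul] at h1
      have h2 : v a ≠ 0 := fun h => ha (hv (by rw [h, map_zero]))
      exact mul_right_cancel₀ h2 h1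
    let φ : ℤ ≃+ K := intCyclicAddEquiv
    have h1 := AddSubgroup.index_comap_of_surjective (H := (tr (1 : AddMonoid.End K) n).range)
      (f := φ.toAddMonoidHom) φ.surjective
    rw [← h1]
    have h2 : (tr (1 : AddMonoid.End K) n).range.comap φ.toAddMonoidHom
        = AddSubgroup.zmultiples (n : ℤ) := by
      ext k
      rw [AddSubgroup.mem_comap, AddMonoidHom.mem_range, AddSubgroup.mem_zmultiples_iff]
      constructor
      · rintro ⟨a, ha⟩
        rw [htr] at ha
        refine ⟨φ.symm a, φ.injective ?_⟩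
        have h3 : φ (φ.symm a • (n : ℤ)) = n • a := by
          rw [smul_eq_mul, mul_comm, ← smul_eq_mul, map_zsmul, AddEquiv.apply_symm_apply,
            natCast_zsmul]
        rw [h3, ha]
        rfl
      · rintro ⟨j, hj⟩
        refine ⟨φ j, ?_⟩
        rw [htr, ← hj]
        show n • φ j = φ (j • (n : ℤ))
        rw [smul_eq_mul, mul_comm, ← smul_eq_mul, map_zsmul, natCast_zsmul]
    rw [h2, Int.index_zmultiples, Int.natAbs_natCast]
  · unfold q1
    have hk : (tr (1 : AddMonoid.End K) n).ker = ⊥ := by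
      rw [eq_bot_iff]
      intro a ha
      rw [AddMonoidHom.mem_ker, htr] at ha
      rw [AddSubgroup.mem_bot]
      have h1 := congrArg v ha
      rw [map_nsmul, map_zero, smul_eq_zero] at h1
      rcases h1 with h1 | h1
      · omega
      · exact hv (by rw [h1, map_zero])
    rw [hk, AddSubgroup.relIndex_bot_right]

end

/-- the algebra of the proof -/
theorem uh_alg (hHex : S_Hex) (hFin : S_HFin) {W U : Type} [Fintype W] [Nonempty W]
    [AddCommGroup U] (e : Equiv.Perm W) (n : ℕ) (hn : 0 < n) (he : e ^ n = 1)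
    (β : AddMonoid.End (W → ℤ)) (hβ : ∀ a x, β a x = a (e x)) (τ : AddMonoid.End U)
    (hτ : τ ^ n = 1) (f : (W → ℤ) →+ U) (hf : ∀ a, f (β a) = τ (f a))
    (hker : ∀ a, f a = 0 → (∀ w, 0 < a w) ∨ (∀ w, a w < 0) ∨ ∀ w, a w = 0)
    (hne : ∃ a, f a = 0 ∧ a ≠ 0) (hfin : Finite (U ⧸ f.range)) (Q : ℕ) (hQ : Q ≠ 0)
    (hq0 : q0 β n = Q) (hq1 : q1 β n = 1) :
    q0 τ n ≠ 0 ∧ q1 τ n ≠ 0 ∧ q0 τ n * n = Q * q1 τ n := by
  obtain ⟨w0⟩ : Nonempty W := inferInstance
  -- the power of β
  have hβk : ∀ (k : ℕ) (a : W → ℤ) (x : W), (β ^ k) a x = a ((e ^ k) x) := by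
    intro k
    induction k with
    | zero => intro a x; rfl
    | succ k ih =>
      intro a x
      have h1 : (β ^ (k + 1)) a = (β ^ k) (β a) := by rw [pow_succ]; rfl
      rw [h1, ih, hβ, ← Equiv.Perm.mul_apply, ← pow_succ']
  have hβn : β ^ n = 1 := by
    refine DFunLike.ext _ _ fun a => funext fun x => ?_
    rw [hβk, he]
    rfl
  -- the kernel
  have hfix : ∀ a, f a = 0 → β a = a := by
    intro a ha
    have h1 : f (β a - a) = 0 := by rw [map_sub, hf, ha, map_zero, sub_zero]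
    have h2 : ∑ w, (β a - a) w = 0 := by
      simp only [Pi.sub_apply, Finset.sum_sub_distrib, hβ]
      rw [Equiv.sum_comp e a, sub_self]
    rcases hker _ h1 with h | h | h
    · have := Finset.sum_pos (fun w _ => h w) ⟨w0, Finset.mem_univ w0⟩
      omega
    · have := Finset.sum_neg (fun w _ => h w) ⟨w0, Finset.mem_univ w0⟩
      omega
    · exact sub_eq_zero.1 (funext h)
  have hK := q_triv f.ker ((Pi.evalAddMonoidHom (fun _ : W => ℤ) w0).comp f.ker.subtype) (by
      rw [injective_iff_map_eq_zero]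
      intro a ha
      have h0 : (a : W → ℤ) w0 = 0 := ha
      rcases hker _ (AddMonoidHom.mem_ker.1 a.2) with h | h | h
      · have := h w0
        omega
      · have := h w0
        omega
      · exact Subtype.ext (funext h)) (by
      obtain ⟨a, ha, hne⟩ := hne
      exact ⟨⟨a, ha⟩, fun h => hne (congrArg Subtype.val h)⟩) n hn
  -- the image
  have hmem : ∀ y : f.range, τ (y : U) ∈ f.range := by
    rintro ⟨y, a, rfl⟩
    exact ⟨β a, hf a⟩
  let γ : AddMonoid.End f.range :=
    ((τ : U →+ U).comp f.range.subtype).codRestrict f.range hmem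
  have hγ : ∀ y : f.range, ((γ y : f.range) : U) = τ (y : U) := fun y => rfl
  have hγn : γ ^ n = 1 :=
    pow_eq_one_of_inj γ τ f.range.subtype Subtype.val_injective (fun y => hγ y) n hτ
  -- the quotient
  let δ : AddMonoid.End (U ⧸ f.range) :=
    QuotientAddGroup.map f.range f.range (τ : U →+ U) (fun y hy => hmem ⟨y, hy⟩)
  have hδ : ∀ u : U, (QuotientAddGroup.mk' f.range) (τ u) = δ ((QuotientAddGroup.mk' f.range) u) :=
    fun u => rfl
  have hδn : δ ^ n = 1 :=
    pow_eq_one_of_surj τ δ (QuotientAddGroup.mk' f.range)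
      (QuotientAddGroup.mk'_surjective f.range) hδ n hτ
  obtain ⟨-, -, h3, h4⟩ := hHex f.ker (W → ℤ) f.range 1 β γ f.ker.subtype f.rangeRestrict n hn
    (one_pow n) hβn hγn Subtype.val_injective f.rangeRestrict_surjective
    (by rw [AddSubgroup.range_subtype, AddMonoidHom.ker_rangeRestrict])
    (fun a => (hfix _ (AddMonoidHom.mem_ker.1 a.2)).symm)
    (fun b => Subtype.ext (hf b))
  obtain ⟨g1, -, -, g4⟩ := hHex f.range U (U ⧸ f.range) γ τ δ f.range.subtype
    (QuotientAddGroup.mk' f.range) n hn hγn hτ hδn Subtype.val_injective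
    (QuotientAddGroup.mk'_surjective f.range)
    (by rw [AddSubgroup.range_subtype, QuotientAddGroup.ker_mk'])
    (fun a => rfl) hδ
  obtain ⟨k1, k2⟩ := hFin (U ⧸ f.range) δ n hn hδn
  rw [hK.1, hK.2, hq0, hq1] at h3 h4
  obtain ⟨c0, c1⟩ := h3 ⟨hn.ne', one_ne_zero, hQ, one_ne_zero⟩
  have c2 := h4 ⟨hn.ne', one_ne_zero, hQ, one_ne_zero, c0, c1⟩
  obtain ⟨d0, d1⟩ := g1 ⟨c0, c1, k2, k1 ▸ k2⟩
  have d2 := g4 ⟨c0, c1, d0, d1, k2, k1 ▸ k2⟩
  refine ⟨d0, d1, ?_⟩
  rw [← k1] at d2
  have d3 : q0 τ n * q1 γ n = q1 τ n * q0 γ n := Nat.eq_of_mul_eq_mul_right (Nat.pos_of_ne_zero k2) d2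
  have h5 : q1 γ n * (q0 τ n * n) = q1 γ n * (Q * q1 τ n) := by
    calc q1 γ n * (q0 τ n * n) = (q0 τ n * q1 γ n) * n := by ring
      _ = q1 τ n * (1 * n * q0 γ n) := by rw [d3]; ring
      _ = q1 τ n * (Q * 1 * q1 γ n) := by rw [c2]
      _ = _ := by ring
  exact Nat.eq_of_mul_eq_mul_left (Nat.pos_of_ne_zero c1) h5

end Pool.Agent.Q95.AR
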